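import Pool.Agent.Helper66.SB.Goals

/-!
Project SB, packet DO: order along the branch and the derivation.
-/

set_option autoImplicit false

namespace Pool.Agent.Helper86.SB

open MvPolynomial Pool.Agent.Helper66.SB Helper18.Shgh

theorem br_coeff_zero (R : Fin 2 → ℂ) (φ : Polynomial ℂ) (hφ : φ.coeff 0 = 0) (G : R2) :
    (br R φ G).coeff 0 = eval R G := by
  have h : (Polynomial.aeval (0 : ℂ)).comp (br R φ) = (MvPolynomial.aeval R : R2 →ₐ[ℂ] ℂ) := by
    apply MvPolynomial.algHom_ext
    intro i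
    rw [AlgHom.comp_apply, MvPolynomial.aeval_X]
    unfold br
    rw [MvPolynomial.aeval_X]
    fin_cases i
    · simp
    · show (Polynomial.aeval (0 : ℂ)) (Polynomial.C (R 1) + φ) = R 1
      rw [map_add, Polynomial.aeval_C, Polynomial.coe_aeval_eq_eval,
        ← Polynomial.coeff_zero_eq_eval_zero, hφ, add_zero]
      rfl
  have h2 := congrArg (fun f => f G) h
  rw [Polynomial.coeff_zero_eq_eval_zero]
  have h3 : (Polynomial.aeval (0 : ℂ)) (br R φ G) = (MvPolynomial.aeval R : R2 →ₐ[ℂ] ℂ) G := h2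
  rw [Polynomial.coe_aeval_eq_eval] at h3
  rw [h3]
  rfl

theorem dn_succ (F : R2) (j : ℕ) (g : R2) : dn F (j + 1) g = dl F (dn F j g) := by
  unfold dn
  rw [pow_succ']
  rfl

/-- Packet DO. -/
theorem gDO (hBD : G_BD) : G_DO := by
  intro F g R φ M e hφ hF he hg
  have key : ∀ j, j ≤ e → Polynomial.X ^ (e - j) ∣ br R φ (dn F j g) := by
    intro j
    induction j with
    | zero =>
      intro _
      exact hg
    | succ j ih =>
      intro hj
      have h1 := ih (by omega)
      have h2 := Polynomial.pow_sub_one_dvd_derivative_of_pow_dvd h1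
      have h3 := hBD F (dn F j g) R φ M hF
      have h4 : Polynomial.X ^ (e - (j + 1)) ∣ (Polynomial.X ^ (M - 1) : Polynomial ℂ) :=
        pow_dvd_pow _ (by omega)
      have h5 : e - j - 1 = e - (j + 1) := by omega
      rw [h5] at h2
      rw [dn_succ]
      exact (dvd_sub_left (h2.mul_left _)).1 (h4.trans h3)
  rw [mem_OC]
  intro j hj
  rw [← br_coeff_zero R φ hφ]
  have h1 := key j hj.le
  have h2 : (Polynomial.X : Polynomial ℂ) ∣ br R φ (dn F j g) :=
    (dvd_pow_self _ (by omega)).trans h1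
  exact Polynomial.X_dvd_iff.1 h2

end Pool.Agent.Helper86.SB
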